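import Mathlib

open MeasureTheory Set Filter Topology

namespace Pool.Agent.R497.Geh

variable {d : ℕ}

/-- half-open cube -/
def HC (a : Fin d → ℝ) (s : ℝ) : Set (Fin d → ℝ) := Set.pi Set.univ (fun i => Ico (a i) (a i + s))

/-- lower corner of a child -/
noncomputable def ch (a : Fin d → ℝ) (s : ℝ) (b : Fin d → Fin 2) : Fin d → ℝ :=
  fun i => a i + s / 2 * ((b i : ℕ) : ℝ)

theorem mem_HC {a : Fin d → ℝ} {s : ℝ} {x : Fin d → ℝ} :
    x ∈ HC a s ↔ ∀ i, a i ≤ x i ∧ x i < a i + s := by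
  simp [HC]

theorem meas_HC (a : Fin d → ℝ) (s : ℝ) : MeasurableSet (HC a s) :=
  MeasurableSet.univ_pi fun _ => measurableSet_Ico

theorem vol_HC (a : Fin d → ℝ) (s : ℝ) : volume (HC a s) = ENNReal.ofReal s ^ d := by
  unfold HC
  rw [Real.volume_pi_Ico]
  simp

theorem HC_ae (a : Fin d → ℝ) (s : ℝ) :
    HC a s =ᵐ[volume] Icc a (fun i => a i + s) := Measure.univ_pi_Ico_ae_eq_Icc

open Classical in
/-- the index of the child which contains `x` -/
noncomputable def idx (a : Fin d → ℝ) (s : ℝ) (x : Fin d → ℝ) : Fin d → Fin 2 :=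
  fun i => if x i < a i + s / 2 then 0 else 1

theorem mem_child {a : Fin d → ℝ} {s : ℝ} {x : Fin d → ℝ} (hx : x ∈ HC a s) :
    x ∈ HC (ch a s (idx a s x)) (s / 2) := by
  rw [mem_HC] at hx ⊢
  intro i
  obtain ⟨h1, h2⟩ := hx i
  unfold ch idx
  by_cases h : x i < a i + s / 2
  · simp only [h, if_true, Fin.val_zero, Nat.cast_zero]
    constructor <;> linarith
  · simp only [h, if_false, Fin.val_one, Nat.cast_one]
    push Not at h
    constructor <;> linarith

theorem child_sub {a : Fin d → ℝ} {s : ℝ} (hs : 0 < s) (b : Fin d → Fin 2) :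
    HC (ch a s b) (s / 2) ⊆ HC a s := by
  intro x hx
  rw [mem_HC] at hx ⊢
  intro i
  obtain ⟨h1, h2⟩ := hx i
  unfold ch at h1 h2
  have hb : ((b i : ℕ) : ℝ) = 0 ∨ ((b i : ℕ) : ℝ) = 1 := by
    have := (b i).isLt
    have : (b i : ℕ) = 0 ∨ (b i : ℕ) = 1 := by omega
    rcases this with h | h <;> simp [h]
  rcases hb with h | h <;> rw [h] at h1 h2 <;> constructor <;> linarith

theorem child_eq {a : Fin d → ℝ} {s : ℝ} {x : Fin d → ℝ} {b : Fin d → Fin 2}
    (hx : x ∈ HC (ch a s b) (s / 2)) : b = idx a s x := by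
  rw [mem_HC] at hx
  funext i
  obtain ⟨h1, h2⟩ := hx i
  unfold ch at h1 h2
  unfold idx
  have hb : (b i : ℕ) = 0 ∨ (b i : ℕ) = 1 := by
    have := (b i).isLt
    omega
  rcases hb with h | h
  · rw [h] at h1 h2
    simp only [Nat.cast_zero, mul_zero, add_zero] at h1 h2
    rw [if_pos h2]
    exact Fin.ext h
  · rw [h] at h1 h2
    simp only [Nat.cast_one, mul_one] at h1 h2
    rw [if_neg (by linarith)]
    exact Fin.ext h

theorem union_child {a : Fin d → ℝ} {s : ℝ} (hs : 0 < s) :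
    HC a s = ⋃ b : Fin d → Fin 2, HC (ch a s b) (s / 2) := by
  ext x
  rw [mem_iUnion]
  exact ⟨fun h => ⟨_, mem_child h⟩, fun ⟨b, hb⟩ => child_sub hs b hb⟩

theorem disj_child {a : Fin d → ℝ} {s : ℝ} :
    Pairwise (Function.onFun Disjoint fun b : Fin d → Fin 2 => HC (ch a s b) (s / 2)) := by
  intro b b' hbb
  rw [Function.onFun, Set.disjoint_left]
  intro x hx hx'
  exact hbb ((child_eq hx).trans (child_eq hx').symm)

/-- real mean value over a cube -/
noncomputable def mn (w : (Fin d → ℝ) → ℝ) (a : Fin d → ℝ) (s : ℝ) : ℝ :=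
  (∫ x in HC a s, w x) / s ^ d

theorem integrableOn {w : (Fin d → ℝ) → ℝ} (hw : LocallyIntegrable w) (a : Fin d → ℝ) (s : ℝ) :
    IntegrableOn w (HC a s) := by
  have : IntegrableOn w (Icc a (fun i => a i + s)) :=
    hw.integrableOn_isCompact isCompact_Icc
  exact this.congr_set_ae (HC_ae a s)

theorem vol_real (a : Fin d → ℝ) {s : ℝ} (hs : 0 < s) : volume.real (HC a s) = s ^ d := by
  rw [measureReal_def, vol_HC, ENNReal.toReal_pow, ENNReal.toReal_ofReal hs.le]

theorem integral_eq_mn (w : (Fin d → ℝ) → ℝ) (a : Fin d → ℝ) {s : ℝ} (hs : 0 < s) :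
    ∫ x in HC a s, w x = s ^ d * mn w a s := by
  unfold mn
  field_simp

/-- mean value of a child -/
theorem mn_child {w : (Fin d → ℝ) → ℝ} (hw0 : ∀ x, 0 < w x) (hw : LocallyIntegrable w)
    {a : Fin d → ℝ} {s : ℝ} (hs : 0 < s) (b : Fin d → Fin 2) :
    mn w (ch a s b) (s / 2) ≤ 2 ^ d * mn w a s := by
  have h1 : ∫ x in HC (ch a s b) (s / 2), w x ≤ ∫ x in HC a s, w x :=
    setIntegral_mono_set (integrableOn hw a s) (Eventually.of_forall fun x => (hw0 x).le)
      (Eventually.of_forall (child_sub hs b))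
  unfold mn
  rw [div_pow]
  have : (0 : ℝ) < s ^ d := by positivity
  rw [div_div_eq_mul_div, ← mul_div_assoc, mul_comm]
  gcongr

open Classical in
/-- the points whose cube has been stopped within `m` generations -/
noncomputable def bad (w : (Fin d → ℝ) → ℝ) (l : ℝ) : ℕ → (Fin d → ℝ) → ℝ → Set (Fin d → ℝ)
  | 0, _, _ => ∅
  | m + 1, a, s => ⋃ b : Fin d → Fin 2,
      if l < mn w (ch a s b) (s / 2) then HC (ch a s b) (s / 2)
      else bad w l m (ch a s b) (s / 2)

theorem bad_sub (w : (Fin d → ℝ) → ℝ) (l : ℝ) (m : ℕ) : ∀ (a : Fin d → ℝ) (s : ℝ), 0 < s →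
    bad w l m a s ⊆ HC a s := by
  induction m with
  | zero => intro a s _ x hx; exact absurd hx (by simp [bad])
  | succ m ih =>
    intro a s hs x hx
    unfold bad at hx
    rw [mem_iUnion] at hx
    obtain ⟨b, hb⟩ := hx
    split_ifs at hb with h
    · exact child_sub hs b hb
    · exact child_sub hs b (ih _ _ (by linarith) hb)

theorem bad_meas (w : (Fin d → ℝ) → ℝ) (l : ℝ) (m : ℕ) : ∀ (a : Fin d → ℝ) (s : ℝ),
    MeasurableSet (bad w l m a s) := by
  induction m with
  | zero => intro a s; simp [bad]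
  | succ m ih =>
    intro a s
    unfold bad
    refine MeasurableSet.iUnion fun b => ?_
    split_ifs
    · exact meas_HC _ _
    · exact ih _ _

theorem bad_mono (w : (Fin d → ℝ) → ℝ) (l : ℝ) (m : ℕ) : ∀ (a : Fin d → ℝ) (s : ℝ),
    bad w l m a s ⊆ bad w l (m + 1) a s := by
  induction m with
  | zero => intro a s x hx; exact absurd hx (by simp [bad])
  | succ m ih =>
    intro a s
    rw [bad, bad]
    refine iUnion_mono fun b => ?_
    split_ifs
    · exact le_rfl
    · exact ih _ _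

/-- almost every point of the cube where `w > l` belongs to a stopped cube -/
theorem ae_bad {w : (Fin d → ℝ) → ℝ} (hw : LocallyIntegrable w) (l : ℝ) (a : Fin d → ℝ) {s : ℝ}
    (hs : 0 < s) : ∀ᵐ x : Fin d → ℝ, x ∈ HC a s → l < w x → ∃ m, x ∈ bad w l m a s := by
  filter_upwards [IsUnifLocDoublingMeasure.ae_tendsto_average (μ := (volume : Measure (Fin d → ℝ)))
    hw 1] with x hx hxa hlx
  by_contra hcon
  push Not at hcon
  -- the lower corners of the cubes
  let A : ℕ → (Fin d → ℝ) := fun k => Nat.rec a (fun k ak => ch ak (s / 2 ^ k) (idx ak (s / 2 ^ k) x)) k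
  have A0 : A 0 = a := rfl
  have AS : ∀ k, A (k + 1) = ch (A k) (s / 2 ^ k) (idx (A k) (s / 2 ^ k) x) := fun k => rfl
  have hsk : ∀ k : ℕ, 0 < s / 2 ^ k := fun k => by positivity
  have hhalf : ∀ k : ℕ, s / 2 ^ k / 2 = s / 2 ^ (k + 1) := fun k => by rw [pow_succ]; field_simp
  have key : ∀ k, x ∈ HC (A k) (s / 2 ^ k) ∧ (∀ m, x ∉ bad w l m (A k) (s / 2 ^ k)) ∧
      (1 ≤ k → mn w (A k) (s / 2 ^ k) ≤ l) := by
    intro k
    induction k with
    | zero =>
      refine ⟨by simpa [A0] using hxa, by simpa [A0] using hcon, fun h => absurd h (by norm_num)⟩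
    | succ k ih =>
      obtain ⟨h1, h2, -⟩ := ih
      have h3 := mem_child h1
      rw [← AS, hhalf] at h3
      have h4 : ¬ l < mn w (A (k + 1)) (s / 2 ^ (k + 1)) := by
        intro h
        apply h2 1
        unfold bad
        rw [mem_iUnion]
        refine ⟨idx (A k) (s / 2 ^ k) x, ?_⟩
        rw [← AS, hhalf, if_pos h]
        exact h3
      refine ⟨h3, fun m hm => ?_, fun _ => not_lt.1 h4⟩
      apply h2 (m + 1)
      unfold bad
      rw [mem_iUnion]
      refine ⟨idx (A k) (s / 2 ^ k) x, ?_⟩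
      rw [← AS, hhalf, if_neg h4]
      exact hm
  -- the centres and radii
  have hδ : Tendsto (fun k : ℕ => s / 2 ^ k / 2) atTop (𝓝[>] 0) := by
    refine tendsto_nhdsWithin_iff.2 ⟨?_, Eventually.of_forall fun k => by
      simp only [mem_Ioi]; positivity⟩
    have h1 : Tendsto (fun k : ℕ => (s / 2) * (1 / 2 : ℝ) ^ k) atTop (𝓝 (s / 2 * 0)) :=
      (tendsto_pow_atTop_nhds_zero_of_lt_one (by norm_num) (by norm_num)).const_mul _
    rw [mul_zero] at h1
    refine h1.congr fun k => ?_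
    rw [one_div, inv_pow]
    field_simp
  have hball : ∀ k : ℕ, Metric.closedBall (fun i => A k i + s / 2 ^ k / 2) (s / 2 ^ k / 2) =
      Icc (A k) (fun i => A k i + s / 2 ^ k) := by
    intro k
    rw [closedBall_pi _ (by have := hsk k; positivity)]
    ext y
    simp only [Real.closedBall_eq_Icc, Set.mem_pi, mem_univ, true_implies, mem_Icc, Pi.le_def]
    constructor
    · intro h
      exact ⟨fun i => by have := (h i).1; linarith, fun i => by have := (h i).2; linarith⟩
    · rintro ⟨h1, h2⟩ i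
      exact ⟨by have := h1 i; linarith, by have := h2 i; linarith⟩
  have hlim := hx (l := atTop) (fun k : ℕ => fun i => A k i + s / 2 ^ k / 2)
    (fun k : ℕ => s / 2 ^ k / 2) hδ (Eventually.of_forall fun k => by
      rw [one_mul, hball]
      have := (mem_HC.1 (key k).1)
      exact ⟨fun i => (this i).1, fun i => (this i).2.le⟩)
  have hle : w x ≤ l := by
    refine le_of_tendsto hlim ?_
    filter_upwards [eventually_ge_atTop 1] with k hk
    rw [hball]
    have h1 : ∫ y in Icc (A k) (fun i => A k i + s / 2 ^ k), w y = ∫ y in HC (A k) (s / 2 ^ k), w y :=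
      (setIntegral_congr_set (HC_ae _ _)).symm
    have h2 : volume.real (Icc (A k) (fun i => A k i + s / 2 ^ k)) = (s / 2 ^ k) ^ d := by
      rw [← vol_real (A k) (hsk k), measureReal_def, measureReal_def, measure_congr (HC_ae _ _)]
    rw [setAverage_eq, h1, h2, smul_eq_mul, inv_mul_eq_div]
    exact (key k).2.2 hk
  linarith

end Pool.Agent.R497.Geh
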