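import Pool.Agent.R497.Geh1

open MeasureTheory Set Filter Topology

namespace Pool.Agent.R497.Geh

variable {d : ℕ}

/-- reverse Hölder inequality with the constant `K` (for the `p`-th powers) on all half-open cubes -/
def RHK (p K : ℝ) (w : (Fin d → ℝ) → ℝ) : Prop :=
  ∀ (a : Fin d → ℝ) (s : ℝ), 0 < s →
    ∫⁻ x in HC a s, ENNReal.ofReal (w x ^ p) ≤ ENNReal.ofReal (K * s ^ d * mn w a s ^ p)

theorem mn_pos {w : (Fin d → ℝ) → ℝ} (hw0 : ∀ x, 0 < w x) (hw : LocallyIntegrable w)
    (a : Fin d → ℝ) {s : ℝ} (hs : 0 < s) : 0 < mn w a s := by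
  unfold mn
  have : (0 : ℝ) < s ^ d := by positivity
  refine div_pos ?_ this
  rw [setIntegral_pos_iff_support_of_nonneg_ae (Eventually.of_forall fun x => (hw0 x).le)
    (integrableOn hw a s)]
  have h1 : Function.support w = univ := by
    ext x; simp [(hw0 x).ne']
  rw [h1, univ_inter, vol_HC]
  exact ENNReal.pow_pos (ENNReal.ofReal_pos.2 hs) d

/-- the basic inequality on a stopped cube -/
theorem base {p K : ℝ} (hp : 1 < p) (hK : 0 ≤ K) {w : (Fin d → ℝ) → ℝ} (hwm : Measurable w)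
    (hw0 : ∀ x, 0 < w x) (hw : LocallyIntegrable w) (hRH : RHK p K w) {l : ℝ} (hl : 0 < l)
    (a : Fin d → ℝ) {s : ℝ} (hs : 0 < s) (h1 : l < mn w a s) (h2 : mn w a s ≤ 2 ^ d * l) :
    ∫⁻ x in HC a s, ENNReal.ofReal (w x ^ p) ≤
      ENNReal.ofReal (2 * (2 ^ d : ℝ) ^ p * K * l ^ (p - 1)) *
        ∫⁻ x in HC a s ∩ {x | l < 2 * w x}, ENNReal.ofReal (w x) := by
  set J : ℝ := ∫ x in HC a s ∩ {x | l < 2 * w x}, w x with hJ
  have hmE : MeasurableSet {x | l < 2 * w x} := measurableSet_lt measurable_const (hwm.const_mul 2)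
  have hint := integrableOn hw a s
  have hintE : IntegrableOn w (HC a s ∩ {x | l < 2 * w x}) := hint.mono_set inter_subset_left
  have hJ0 : 0 ≤ J := setIntegral_nonneg ((meas_HC a s).inter hmE) fun x _ => (hw0 x).le
  have hJl : ∫⁻ x in HC a s ∩ {x | l < 2 * w x}, ENNReal.ofReal (w x) = ENNReal.ofReal J :=
    (ofReal_integral_eq_lintegral_ofReal hintE (Eventually.of_forall fun x => (hw0 x).le)).symm
  have hsd : (0 : ℝ) < s ^ d := by positivity
  -- the volume of the cube is at most `2 / l * J`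
  have hvol : s ^ d ≤ 2 / l * J := by
    have e1 : ∫ x in HC a s, w x = J + ∫ x in HC a s \ {x | l < 2 * w x}, w x := by
      rw [hJ, integral_inter_add_diff hmE hint]
    have e2 : ∫ x in HC a s \ {x | l < 2 * w x}, w x ≤ l / 2 * s ^ d := by
      have hmD : MeasurableSet (HC a s \ {x | l < 2 * w x}) := (meas_HC a s).diff hmE
      have hfin : volume (HC a s \ {x | l < 2 * w x}) ≠ ⊤ :=
        ne_top_of_le_ne_top (by rw [vol_HC]; exact ENNReal.pow_ne_top ENNReal.ofReal_ne_top)
          (measure_mono diff_subset)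
      calc ∫ x in HC a s \ {x | l < 2 * w x}, w x
          ≤ ∫ _x in HC a s \ {x | l < 2 * w x}, l / 2 := by
            refine setIntegral_mono_on (hint.mono_set diff_subset)
              (integrableOn_const hfin) hmD fun x hx => ?_
            have := hx.2
            simp only [mem_setOf_eq, not_lt] at this
            linarith
        _ = volume.real (HC a s \ {x | l < 2 * w x}) * (l / 2) := by
            rw [setIntegral_const, smul_eq_mul]
        _ ≤ volume.real (HC a s) * (l / 2) := by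
            refine mul_le_mul_of_nonneg_right ?_ (by linarith)
            exact measureReal_mono diff_subset
              (by rw [vol_HC]; exact ENNReal.pow_ne_top ENNReal.ofReal_ne_top)
        _ = l / 2 * s ^ d := by rw [vol_real a hs]; ring
    have e3 : s ^ d * l < s ^ d * mn w a s := mul_lt_mul_of_pos_left h1 hsd
    rw [← integral_eq_mn w a hs, e1] at e3
    have e4 : s ^ d * l / 2 ≤ J := by linarith
    rw [div_mul_eq_mul_div, le_div_iff₀ hl]
    linarith
  rw [hJl]
  refine (hRH a s hs).trans ?_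
  rw [← ENNReal.ofReal_mul (by positivity)]
  refine ENNReal.ofReal_le_ofReal ?_
  have hm0 := mn_pos hw0 hw a hs
  have hpow : mn w a s ^ p ≤ (2 ^ d : ℝ) ^ p * l ^ p := by
    rw [← Real.mul_rpow (by positivity) hl.le]
    exact Real.rpow_le_rpow hm0.le h2 (by linarith)
  have hlp : l ^ p = l ^ (p - 1) * l := by
    rw [← Real.rpow_add_one hl.ne']; congr 1; ring
  calc K * s ^ d * mn w a s ^ p ≤ K * (2 / l * J) * ((2 ^ d : ℝ) ^ p * l ^ p) := by
        gcongr
    _ = 2 * (2 ^ d : ℝ) ^ p * K * l ^ (p - 1) * J := by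
        rw [hlp]; field_simp

theorem lintegral_split {a : Fin d → ℝ} {s : ℝ} (hs : 0 < s) {E : Set (Fin d → ℝ)}
    (hE : MeasurableSet E) (f : (Fin d → ℝ) → ENNReal) :
    ∫⁻ x in HC a s ∩ E, f x = ∑ b : Fin d → Fin 2, ∫⁻ x in HC (ch a s b) (s / 2) ∩ E, f x := by
  rw [union_child hs, iUnion_inter, lintegral_iUnion (fun b => (meas_HC _ _).inter hE)
    (fun b b' h => (disj_child h).mono inter_subset_left inter_subset_left), tsum_fintype]

/-- the inequality on the union of the stopped cubes -/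
theorem rec {p K : ℝ} (hp : 1 < p) (hK : 0 ≤ K) {w : (Fin d → ℝ) → ℝ} (hwm : Measurable w)
    (hw0 : ∀ x, 0 < w x) (hw : LocallyIntegrable w) (hRH : RHK p K w) {l : ℝ} (hl : 0 < l)
    (m : ℕ) : ∀ (a : Fin d → ℝ) (s : ℝ), 0 < s → mn w a s ≤ l →
    ∫⁻ x in bad w l m a s, ENNReal.ofReal (w x ^ p) ≤
      ENNReal.ofReal (2 * (2 ^ d : ℝ) ^ p * K * l ^ (p - 1)) *
        ∫⁻ x in HC a s ∩ {x | l < 2 * w x}, ENNReal.ofReal (w x) := by
  have hmE : MeasurableSet {x | l < 2 * w x} := measurableSet_lt measurable_const (hwm.const_mul 2)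
  induction m with
  | zero => intro a s _ _; simp [bad]
  | succ m ih =>
    intro a s hs hm
    rw [lintegral_split hs hmE, Finset.mul_sum, bad]
    refine (lintegral_iUnion_le _ _).trans ?_
    rw [tsum_fintype]
    refine Finset.sum_le_sum fun b _ => ?_
    split_ifs with h
    · exact base hp hK hwm hw0 hw hRH hl _ (by linarith) h
        ((mn_child hw0 hw hs b).trans (mul_le_mul_of_nonneg_left hm (by positivity)))
    · exact ih _ _ (by linarith) (not_lt.1 h)

/-- Gehring's inequality for the level sets -/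
theorem gehring {p K : ℝ} (hp : 1 < p) (hK : 0 ≤ K) {w : (Fin d → ℝ) → ℝ} (hwm : Measurable w)
    (hw0 : ∀ x, 0 < w x) (hw : LocallyIntegrable w) (hRH : RHK p K w) {l : ℝ} (hl : 0 < l)
    (a : Fin d → ℝ) {s : ℝ} (hs : 0 < s) (hm : mn w a s ≤ l) :
    ∫⁻ x in HC a s ∩ {x | l < w x}, ENNReal.ofReal (w x ^ p) ≤
      ENNReal.ofReal (2 * (2 ^ d : ℝ) ^ p * K * l ^ (p - 1)) *
        ∫⁻ x in HC a s ∩ {x | l < 2 * w x}, ENNReal.ofReal (w x) := by
  have hmono : Monotone fun m => bad w l m a s := monotone_nat_of_le_succ fun m => bad_mono w l m a s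
  calc ∫⁻ x in HC a s ∩ {x | l < w x}, ENNReal.ofReal (w x ^ p)
      ≤ ∫⁻ x in ⋃ m, bad w l m a s, ENNReal.ofReal (w x ^ p) := by
        refine lintegral_mono_set' ?_
        filter_upwards [ae_bad hw l a hs] with x hx hxx
        exact mem_iUnion.2 (hx hxx.1 hxx.2)
    _ = ⨆ m, ∫⁻ x in bad w l m a s, ENNReal.ofReal (w x ^ p) := by
        have hd : Directed (· ⊆ ·) fun m => bad w l m a s := hmono.directed_le
        exact setLIntegral_iUnion_of_directed _ hd
    _ ≤ _ := iSup_le fun m => rec hp hK hwm hw0 hw hRH hl m a s hs hm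

end Pool.Agent.R497.Geh
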