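import Pool.Agent.R497.Geh2

open MeasureTheory Set Filter Topology

namespace Pool.Agent.R497.Geh

variable {d : ℕ}

/-- levels -/
noncomputable def lev (L : ℝ) (k : ℕ) : ℝ := 2 ^ k * L

theorem lev_pos {L : ℝ} (hL : 0 < L) (k : ℕ) : 0 < lev L k := by unfold lev; positivity

theorem lev_succ (L : ℝ) (k : ℕ) : lev L (k + 1) = 2 * lev L k := by unfold lev; ring

theorem lev_zero (L : ℝ) : lev L 0 = L := by unfold lev; ring

/-- telescoping bound for the truncated power -/
theorem trunc_le {L t e : ℝ} (hL : 0 < L) (ht : 0 < t) (he : 0 < e) (n : ℕ) :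
    min t (lev L n) ^ e ≤ L ^ e +
      ∑ k ∈ Finset.range n, (lev L (k + 1) ^ e - lev L k ^ e) * (if lev L k < t then 1 else 0) := by
  induction n with
  | zero =>
    simp only [Finset.range_zero, Finset.sum_empty, add_zero, lev_zero]
    exact Real.rpow_le_rpow (by positivity) (min_le_right _ _) he.le
  | succ n ih =>
    rw [Finset.sum_range_succ]
    by_cases h : lev L n < t
    · rw [min_eq_right h.le] at ih
      rw [if_pos h, mul_one]
      have : min t (lev L (n + 1)) ^ e ≤ lev L (n + 1) ^ e :=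
        Real.rpow_le_rpow (le_min ht.le (lev_pos hL _).le) (min_le_right _ _) he.le
      linarith
    · rw [if_neg h, mul_zero, add_zero]
      push Not at h
      rw [min_eq_left h] at ih
      have h2 : t ≤ lev L (n + 1) := by rw [lev_succ]; linarith [lev_pos hL n]
      rw [min_eq_left h2]
      exact ih

theorem geom_le {L b : ℝ} (hL : 0 < L) (hb : 0 < b) (n : ℕ) :
    ∑ k ∈ Finset.range n, lev L k ^ b ≤ lev L n ^ b / (2 ^ b - 1) := by
  have h2 : (1 : ℝ) < 2 ^ b := Real.one_lt_rpow (by norm_num) hb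
  induction n with
  | zero =>
    simp only [Finset.range_zero, Finset.sum_empty]
    exact div_nonneg (Real.rpow_nonneg (lev_pos hL _).le _) (by linarith)
  | succ n ih =>
    rw [Finset.sum_range_succ, lev_succ, Real.mul_rpow (by norm_num) (lev_pos hL n).le]
    rw [le_div_iff₀ (by linarith)] at ih ⊢
    linarith

theorem geom_trunc_le {L t b : ℝ} (hL : 0 < L) (ht : 0 < t) (hb : 0 < b) (n : ℕ) :
    ∑ k ∈ Finset.range n, lev L k ^ b * (if lev L k < 2 * t then 1 else 0) ≤
      2 ^ b / (2 ^ b - 1) * min (2 * t) (lev L n) ^ b := by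
  have h2 : (1 : ℝ) < 2 ^ b := Real.one_lt_rpow (by norm_num) hb
  induction n with
  | zero =>
    simp only [Finset.range_zero, Finset.sum_empty]
    have : 0 ≤ min (2 * t) (lev L 0) := le_min (by linarith) (lev_pos hL _).le
    have h3 : 0 ≤ (2 : ℝ) ^ b / (2 ^ b - 1) := div_nonneg (by linarith) (by linarith)
    positivity
  | succ n ih =>
    by_cases h : lev L n < 2 * t
    · have h3 : ∑ k ∈ Finset.range (n + 1), lev L k ^ b * (if lev L k < 2 * t then 1 else 0) ≤
          ∑ k ∈ Finset.range (n + 1), lev L k ^ b := by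
        refine Finset.sum_le_sum fun k _ => ?_
        have := Real.rpow_nonneg (lev_pos hL k).le b
        split_ifs <;> linarith
      refine h3.trans ((geom_le hL hb (n + 1)).trans ?_)
      rw [lev_succ, Real.mul_rpow (by norm_num) (lev_pos hL n).le, mul_div_right_comm]
      refine mul_le_mul_of_nonneg_left ?_ (div_nonneg (by linarith) (by linarith))
      refine Real.rpow_le_rpow (lev_pos hL n).le (le_min h.le ?_) hb.le
      linarith [lev_pos hL n]
    · rw [Finset.sum_range_succ, if_neg h, mul_zero, add_zero]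
      push Not at h
      rw [min_eq_left h] at ih
      have h2 : 2 * t ≤ 2 * lev L n := by linarith [lev_pos hL n]
      rw [lev_succ, min_eq_left h2]
      exact ih

/-- the constant of the geometric sums -/
noncomputable def Cp (p : ℝ) : ℝ := 2 ^ (p - 1) / (2 ^ (p - 1) - 1)

theorem Cp_pos {p : ℝ} (hp : 1 < p) : 0 < Cp p := by
  have h2 : (1 : ℝ) < 2 ^ (p - 1) := Real.one_lt_rpow (by norm_num) (by linarith)
  exact div_pos (by linarith) (by linarith)

theorem Cp_le {p e : ℝ} (hp : 1 < p) (he : 0 < e) :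
    (2 : ℝ) ^ (p - 1 + e) / (2 ^ (p - 1 + e) - 1) ≤ Cp p := by
  have h2 : (1 : ℝ) < 2 ^ (p - 1) := Real.one_lt_rpow (by norm_num) (by linarith)
  have h3 : (2 : ℝ) ^ (p - 1) ≤ 2 ^ (p - 1 + e) :=
    Real.rpow_le_rpow_of_exponent_le (by norm_num) (by linarith)
  unfold Cp
  rw [div_le_div_iff₀ (by linarith) (by linarith)]
  nlinarith

/-- the pointwise inequality behind the absorption -/
theorem point_le {L t p e : ℝ} (hL : 0 < L) (ht : 0 < t) (hp : 1 < p) (he : 0 < e) (he1 : e ≤ 1)
    (n : ℕ) :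
    ∑ k ∈ Finset.range n, (lev L (k + 1) ^ e - lev L k ^ e) * lev L k ^ (p - 1) *
        (if lev L k < 2 * t then t else 0) ≤
      e * (Cp p * 2 ^ p) * (t ^ p * min t (lev L n) ^ e) := by
  have hb : 0 < p - 1 + e := by linarith
  have h2e : (2 : ℝ) ^ e - 1 ≤ e := by
    have := rpow_one_add_le_one_add_mul_self (s := 1) (by norm_num) he.le he1
    norm_num at this
    linarith
  have h2e0 : 0 ≤ (2 : ℝ) ^ e - 1 := by
    have := Real.one_le_rpow (x := 2) (by norm_num) he.le
    linarith
  have hmin0 : 0 < min t (lev L n) := lt_min ht (lev_pos hL n)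
  have e1 : ∑ k ∈ Finset.range n, (lev L (k + 1) ^ e - lev L k ^ e) * lev L k ^ (p - 1) *
        (if lev L k < 2 * t then t else 0) =
      (2 ^ e - 1) * t * ∑ k ∈ Finset.range n, lev L k ^ (p - 1 + e) *
        (if lev L k < 2 * t then 1 else 0) := by
    rw [Finset.mul_sum]
    refine Finset.sum_congr rfl fun k _ => ?_
    rw [lev_succ, Real.mul_rpow (by norm_num) (lev_pos hL k).le, Real.rpow_add (lev_pos hL k)]
    split_ifs <;> ring
  rw [e1]
  have h3 := geom_trunc_le (b := p - 1 + e) hL ht hb n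
  have h4 : min (2 * t) (lev L n) ^ (p - 1 + e) ≤ 2 ^ p * (t ^ (p - 1) * min t (lev L n) ^ e) := by
    have h5 : min (2 * t) (lev L n) ≤ 2 * min t (lev L n) := by
      rcases le_total t (lev L n) with h | h
      · rw [min_eq_left h]; exact min_le_left _ _
      · rw [min_eq_right h]
        exact (min_le_right _ _).trans (by linarith [lev_pos hL n])
    have h6 : 0 < min (2 * t) (lev L n) := lt_min (by linarith) (lev_pos hL n)
    rw [Real.rpow_add h6]
    have h7 : min (2 * t) (lev L n) ^ (p - 1) ≤ 2 ^ (p - 1) * t ^ (p - 1) := by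
      rw [← Real.mul_rpow (by norm_num) ht.le]
      exact Real.rpow_le_rpow h6.le (min_le_left _ _) (by linarith)
    have h8 : min (2 * t) (lev L n) ^ e ≤ 2 ^ e * min t (lev L n) ^ e := by
      rw [← Real.mul_rpow (by norm_num) hmin0.le]
      exact Real.rpow_le_rpow h6.le h5 he.le
    have h9 : (2 : ℝ) ^ e ≤ 2 := by linarith
    have h10 : (2 : ℝ) ^ p = 2 ^ (p - 1) * 2 := by
      rw [← Real.rpow_add_one (by norm_num)]; congr 1; ring
    calc min (2 * t) (lev L n) ^ (p - 1) * min (2 * t) (lev L n) ^ e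
        ≤ (2 ^ (p - 1) * t ^ (p - 1)) * (2 ^ e * min t (lev L n) ^ e) := by gcongr
      _ ≤ (2 ^ (p - 1) * t ^ (p - 1)) * (2 * min t (lev L n) ^ e) := by gcongr
      _ = 2 ^ p * (t ^ (p - 1) * min t (lev L n) ^ e) := by rw [h10]; ring
  have h5 : ∑ k ∈ Finset.range n, lev L k ^ (p - 1 + e) * (if lev L k < 2 * t then 1 else 0) ≤
      Cp p * (2 ^ p * (t ^ (p - 1) * min t (lev L n) ^ e)) := by
    refine h3.trans ?_
    have h6 : 0 < min (2 * t) (lev L n) := lt_min (by linarith) (lev_pos hL n)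
    exact mul_le_mul (Cp_le hp he) h4 (by positivity) (Cp_pos hp).le
  have h6 : t ^ p = t ^ (p - 1) * t := by
    rw [← Real.rpow_add_one ht.ne']; congr 1; ring
  have hC := Cp_pos hp
  calc (2 ^ e - 1) * t * ∑ k ∈ Finset.range n, lev L k ^ (p - 1 + e) *
        (if lev L k < 2 * t then 1 else 0)
      ≤ (2 ^ e - 1) * t * (Cp p * (2 ^ p * (t ^ (p - 1) * min t (lev L n) ^ e))) :=
        mul_le_mul_of_nonneg_left h5 (by positivity)
    _ ≤ e * t * (Cp p * (2 ^ p * (t ^ (p - 1) * min t (lev L n) ^ e))) := by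
        gcongr
    _ = e * (Cp p * 2 ^ p) * (t ^ p * min t (lev L n) ^ e) := by rw [h6]; ring

/-- the absorption inequality for the truncated powers -/
theorem trunc {p K : ℝ} (hp : 1 < p) (hK : 0 ≤ K) {w : (Fin d → ℝ) → ℝ} (hwm : Measurable w)
    (hw0 : ∀ x, 0 < w x) (hw : LocallyIntegrable w) (hRH : RHK p K w)
    (a : Fin d → ℝ) {s : ℝ} (hs : 0 < s) {e : ℝ} (he : 0 < e) (he1 : e ≤ 1)
    (heK : e * (Cp p * 2 ^ p) * (2 * (2 ^ d : ℝ) ^ p * K) ≤ 1 / 2) (n : ℕ) :
    ∫⁻ x in HC a s, ENNReal.ofReal (w x ^ p * min (w x) (lev (mn w a s) n) ^ e) ≤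
      2 * (ENNReal.ofReal (mn w a s ^ e) * ∫⁻ x in HC a s, ENNReal.ofReal (w x ^ p)) := by
  set L := mn w a s with hLdef
  have hL : 0 < L := mn_pos hw0 hw a hs
  set A := ∫⁻ x in HC a s, ENNReal.ofReal (w x ^ p) with hA
  set I := ∫⁻ x in HC a s, ENNReal.ofReal (w x ^ p * min (w x) (lev L n) ^ e) with hI
  have hAfin : A ≠ ⊤ := ne_top_of_le_ne_top ENNReal.ofReal_ne_top (hRH a s hs)
  have hIfin : I ≠ ⊤ := by
    refine ne_top_of_le_ne_top (ENNReal.mul_ne_top (ENNReal.ofReal_ne_top (r := lev L n ^ e)) hAfin) ?_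
    rw [hI, hA, ← lintegral_const_mul _ (by fun_prop)]
    refine lintegral_mono fun x => ?_
    rw [← ENNReal.ofReal_mul (Real.rpow_nonneg (lev_pos hL n).le _)]
    refine ENNReal.ofReal_le_ofReal ?_
    rw [mul_comm]
    have := hw0 x
    have h0 := lev_pos hL n
    gcongr
    exact min_le_right _ _
  have hcoef : ∀ k, 0 ≤ lev L (k + 1) ^ e - lev L k ^ e := by
    intro k
    have : lev L k ^ e ≤ lev L (k + 1) ^ e :=
      Real.rpow_le_rpow (lev_pos hL k).le (by rw [lev_succ]; linarith [lev_pos hL k]) he.le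
    linarith
  have hLk : ∀ k, L ≤ lev L k := by
    intro k
    unfold lev
    have : (1 : ℝ) ≤ 2 ^ k := one_le_pow₀ (by norm_num)
    nlinarith
  have hmeas1 : ∀ k, MeasurableSet {x : Fin d → ℝ | lev L k < w x} := fun k =>
    measurableSet_lt measurable_const hwm
  have hmeas2 : ∀ k, MeasurableSet {x : Fin d → ℝ | lev L k < 2 * w x} := fun k =>
    measurableSet_lt measurable_const (hwm.const_mul 2)
  set C0 : ℝ := 2 * (2 ^ d : ℝ) ^ p * K with hC0
  have hC0n : 0 ≤ C0 := by positivity
  -- first step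
  have step1 : I ≤ ENNReal.ofReal (L ^ e) * A +
      ∑ k ∈ Finset.range n, ENNReal.ofReal (lev L (k + 1) ^ e - lev L k ^ e) *
        ∫⁻ x in HC a s ∩ {x | lev L k < w x}, ENNReal.ofReal (w x ^ p) := by
    have h1 : I ≤ ∫⁻ x in HC a s, (ENNReal.ofReal (L ^ e) * ENNReal.ofReal (w x ^ p) +
        ∑ k ∈ Finset.range n, ENNReal.ofReal (lev L (k + 1) ^ e - lev L k ^ e) *
          ({x | lev L k < w x}.indicator (fun x => ENNReal.ofReal (w x ^ p)) x)) := by
      refine lintegral_mono fun x => ?_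
      have hwx := hw0 x
      have hwp : 0 ≤ w x ^ p := Real.rpow_nonneg hwx.le _
      have h2 := mul_le_mul_of_nonneg_left (trunc_le (t := w x) hL hwx he n) hwp
      refine (ENNReal.ofReal_le_ofReal h2).trans ?_
      rw [mul_add, ENNReal.ofReal_add (by positivity) (by
        refine mul_nonneg hwp (Finset.sum_nonneg fun k _ => mul_nonneg (hcoef k) ?_)
        split_ifs <;> norm_num)]
      refine add_le_add ?_ ?_
      · rw [← ENNReal.ofReal_mul (by positivity), mul_comm]
      · rw [Finset.mul_sum, ENNReal.ofReal_sum_of_nonneg]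
        · refine Finset.sum_le_sum fun k _ => ?_
          by_cases h : lev L k < w x
          · rw [if_pos h, indicator_of_mem (show x ∈ {x | lev L k < w x} from h), mul_one,
              ← ENNReal.ofReal_mul (hcoef k), mul_comm]
          · rw [if_neg h]; simp
        · intro k _
          refine mul_nonneg hwp (mul_nonneg (hcoef k) ?_)
          split_ifs <;> norm_num
    refine h1.trans (le_of_eq ?_)
    rw [lintegral_add_left (by fun_prop), lintegral_const_mul _ (by fun_prop),
      lintegral_finsetSum _ (fun k _ => (Measurable.indicator (by fun_prop) (hmeas1 k)).const_mul _)]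
    congr 1
    refine Finset.sum_congr rfl fun k _ => ?_
    rw [lintegral_const_mul _ (Measurable.indicator (by fun_prop) (hmeas1 k)),
      lintegral_indicator (hmeas1 k), Measure.restrict_restrict (hmeas1 k), inter_comm]
  -- second step: Gehring's inequality
  have step2 : ∑ k ∈ Finset.range n, ENNReal.ofReal (lev L (k + 1) ^ e - lev L k ^ e) *
        ∫⁻ x in HC a s ∩ {x | lev L k < w x}, ENNReal.ofReal (w x ^ p) ≤
      ∑ k ∈ Finset.range n, ENNReal.ofReal (lev L (k + 1) ^ e - lev L k ^ e) *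
        (ENNReal.ofReal (C0 * lev L k ^ (p - 1)) *
          ∫⁻ x in HC a s ∩ {x | lev L k < 2 * w x}, ENNReal.ofReal (w x)) := by
    refine Finset.sum_le_sum fun k _ => ?_
    gcongr
    exact gehring hp hK hwm hw0 hw hRH (lev_pos hL k) a hs (hLk k)
  -- third step
  have step3 : ∑ k ∈ Finset.range n, ENNReal.ofReal (lev L (k + 1) ^ e - lev L k ^ e) *
        (ENNReal.ofReal (C0 * lev L k ^ (p - 1)) *
          ∫⁻ x in HC a s ∩ {x | lev L k < 2 * w x}, ENNReal.ofReal (w x)) ≤
      ENNReal.ofReal (1 / 2) * I := by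
    have h1 : ∀ k, ENNReal.ofReal (lev L (k + 1) ^ e - lev L k ^ e) *
        (ENNReal.ofReal (C0 * lev L k ^ (p - 1)) *
          ∫⁻ x in HC a s ∩ {x | lev L k < 2 * w x}, ENNReal.ofReal (w x)) =
        ∫⁻ x in HC a s, ENNReal.ofReal ((lev L (k + 1) ^ e - lev L k ^ e) *
          (C0 * lev L k ^ (p - 1)) * (if lev L k < 2 * w x then w x else 0)) := by
      intro k
      have hl := Real.rpow_nonneg (lev_pos hL k).le (p - 1)
      rw [← mul_assoc, ← ENNReal.ofReal_mul (hcoef k), inter_comm,
        ← Measure.restrict_restrict (hmeas2 k), ← lintegral_indicator (hmeas2 k),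
        ← lintegral_const_mul _ (Measurable.indicator (by fun_prop) (hmeas2 k))]
      refine lintegral_congr fun x => ?_
      rw [ENNReal.ofReal_mul (mul_nonneg (hcoef k) (mul_nonneg hC0n hl))]
      congr 1
      by_cases h : lev L k < 2 * w x
      · rw [if_pos h, indicator_of_mem (show x ∈ {x | lev L k < 2 * w x} from h)]
      · rw [if_neg h, indicator_of_notMem (show x ∉ {x | lev L k < 2 * w x} from h)]
        simp
    simp_rw [h1]
    have hmk : ∀ k, Measurable fun x => ENNReal.ofReal ((lev L (k + 1) ^ e - lev L k ^ e) *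
          (C0 * lev L k ^ (p - 1)) * (if lev L k < 2 * w x then w x else 0)) := fun k =>
      (Measurable.const_mul (Measurable.ite (hmeas2 k) hwm measurable_const) _).ennreal_ofReal
    rw [← lintegral_finsetSum _ (fun k _ => hmk k), hI, ← lintegral_const_mul _ (by fun_prop)]
    refine lintegral_mono fun x => ?_
    have hwx := hw0 x
    rw [← ENNReal.ofReal_sum_of_nonneg, ← ENNReal.ofReal_mul (by norm_num)]
    · refine ENNReal.ofReal_le_ofReal ?_
      have h2 := point_le (t := w x) hL hwx hp he he1 n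
      have h3 := mul_le_mul_of_nonneg_left h2 hC0n
      have hX : 0 ≤ w x ^ p * min (w x) (lev L n) ^ e := by
        have := lev_pos hL n
        positivity
      calc ∑ k ∈ Finset.range n, (lev L (k + 1) ^ e - lev L k ^ e) *
            (C0 * lev L k ^ (p - 1)) * (if lev L k < 2 * w x then w x else 0)
          = C0 * ∑ k ∈ Finset.range n, (lev L (k + 1) ^ e - lev L k ^ e) * lev L k ^ (p - 1) *
            (if lev L k < 2 * w x then w x else 0) := by
            rw [Finset.mul_sum]
            refine Finset.sum_congr rfl fun k _ => ?_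
            ring
        _ ≤ C0 * (e * (Cp p * 2 ^ p) * (w x ^ p * min (w x) (lev L n) ^ e)) := h3
        _ = (e * (Cp p * 2 ^ p) * C0) * (w x ^ p * min (w x) (lev L n) ^ e) := by ring
        _ ≤ 1 / 2 * (w x ^ p * min (w x) (lev L n) ^ e) :=
            mul_le_mul_of_nonneg_right heK hX
    · intro k _
      have hl := Real.rpow_nonneg (lev_pos hL k).le (p - 1)
      refine mul_nonneg (mul_nonneg (hcoef k) (mul_nonneg hC0n hl)) ?_
      split_ifs <;> [exact hwx.le; exact le_rfl]
  have hfin : I ≤ ENNReal.ofReal (L ^ e) * A + ENNReal.ofReal (1 / 2) * I :=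
    step1.trans (add_le_add le_rfl (step2.trans step3))
  -- absorb
  have hB : ENNReal.ofReal (L ^ e) * A ≠ ⊤ := ENNReal.mul_ne_top ENNReal.ofReal_ne_top hAfin
  lift I to NNReal using hIfin with I' hI'
  obtain ⟨B, hB'⟩ : ∃ B : NNReal, (B : ENNReal) = ENNReal.ofReal (L ^ e) * A :=
    ⟨_, ENNReal.coe_toNNReal hB⟩
  rw [← hB'] at hfin ⊢
  have h12 : ENNReal.ofReal (1 / 2) = ((1 / 2 : NNReal) : ENNReal) := by
    rw [ENNReal.ofReal]; congr 1; ext; simp
  rw [h12] at hfin
  have h3 : (I' : ℝ) ≤ B + 1 / 2 * I' := by exact_mod_cast hfin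
  have h4 : (I' : ℝ) ≤ 2 * B := by linarith
  exact_mod_cast h4

end Pool.Agent.R497.Geh
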